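import Pool.Agent.helper47.SPI.Spec

set_option autoImplicit false

namespace Pool.Agent.SPI

open Finset Pool.Agent.helper85.PG
open scoped Pointwise

theorem FIN_large (C δ : ℝ) (hδ : 0 < δ) : ∃ N : ℕ, ∀ n : ℕ, N ≤ n → C ≤ (n : ℝ) ^ δ := by
  have h := ((tendsto_rpow_atTop hδ).comp tendsto_natCast_atTop_atTop).eventually_ge_atTop C
  exact Filter.eventually_atTop.1 h

theorem FIN (hFRE : FRE_stmt) (hCO4 : CO4_stmt) (hZC : ZC_stmt) (hPCS : PCS_stmt) : FIN_stmt := by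
  intro K η hη
  obtain ⟨d, C, hC1, hF⟩ := hFRE K
  obtain ⟨η', p₁, hη', hZ⟩ := hZC d C η hη
  obtain ⟨δ₀, p₂, hδ₀, hO⟩ := hCO4 η' hη'
  obtain ⟨p₃, hp₃⟩ := FIN_large (C ^ 2) (δ₀ / 2) (by positivity)
  refine ⟨δ₀ / 2, max p₁ (max p₂ p₃), by positivity, ?_⟩
  intro p _ hp H₁ H₂ A B hH₁ hH₂ hc₁ hc₂ hA hB χ hχ α β hα hβ
  have hp1 : p₁ < p := lt_of_le_of_lt (le_max_left _ _) hp
  have hp2 : p₂ < p := lt_of_le_of_lt ((le_max_left _ _).trans (le_max_right _ _)) hp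
  have hp3 : p₃ ≤ p := (lt_of_le_of_lt ((le_max_right _ _).trans (le_max_right _ _)) hp).le
  have hpp : (0 : ℝ) < p := by exact_mod_cast (Fact.out : p.Prime).pos
  have hR : (0 : ℝ) ≤ Real.sqrt (p * (A.card * B.card)) + A.card * B.card := by positivity
  rcases A.eq_empty_or_nonempty with hAe | hAn
  · subst hAe
    rw [Finset.sum_empty, norm_zero]
    positivity
  rcases B.eq_empty_or_nonempty with hBe | hBn
  · subst hBe
    simp only [Finset.sum_empty, Finset.sum_const_zero, norm_zero]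
    positivity
  obtain ⟨P₁, F₁, hs₁, hFc₁, hPc₁, hcov₁⟩ := hF p H₁ (hAn.mono hA) hH₁
  obtain ⟨P₂, F₂, hs₂, hFc₂, hPc₂, hcov₂⟩ := hF p H₂ (hBn.mono hB) hH₂
  have hC0 : 0 ≤ C := by linarith
  obtain ⟨ζ₁, hζ₁, hz₁⟩ := hZ p hp1 P₁ hs₁ (hPc₁.trans (mul_le_mul_of_nonneg_left hc₁ hC0))
  obtain ⟨ζ₂, hζ₂, hz₂⟩ := hZ p hp1 P₂ hs₂ (hPc₂.trans (mul_le_mul_of_nonneg_left hc₂ hC0))
  set M : ℕ := ⌊(p : ℝ) ^ (1 - η')⌋₊ with hM
  have hMle : (M : ℝ) ≤ (p : ℝ) ^ (1 - η') := Nat.floor_le (by positivity)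
  have hmain := hPCS p A B F₁ F₂ (P₁ 1) (P₂ 1) χ
    ((p : ℝ) ^ (-δ₀) * (Real.sqrt (p * (A.card * B.card)) + A.card * B.card))
    (fun a ha => hcov₁ a (hA ha)) (fun b hb => hcov₂ b (hB hb))
    (fun A' B' s α' β' hA' hB' hcA hcB hα' hβ' => by
      have h1 := hO p hp2 A' B' s ζ₁ ζ₂ M χ α' β' hζ₁ hζ₂ hMle
        (fun a ha => Nat.le_floor (hz₁ a (hA' ha))) (fun b hb => Nat.le_floor (hz₂ b (hB' hb)))
        hχ hα' hβ'
      refine h1.trans (mul_le_mul_of_nonneg_left ?_ (by positivity))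
      have hcA' : (A'.card : ℝ) ≤ A.card := by exact_mod_cast hcA
      have hcB' : (B'.card : ℝ) ≤ B.card := by exact_mod_cast hcB
      have h2 : (A'.card : ℝ) * B'.card ≤ A.card * B.card :=
        mul_le_mul hcA' hcB' (by positivity) (by positivity)
      exact add_le_add (Real.sqrt_le_sqrt (mul_le_mul_of_nonneg_left h2 hpp.le)) h2)
    α β hα hβ
  refine hmain.trans ?_
  rw [← mul_assoc]
  refine mul_le_mul_of_nonneg_right ?_ hR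
  have h3 : (F₁.card : ℝ) * F₂.card ≤ (p : ℝ) ^ (δ₀ / 2) := by
    calc (F₁.card : ℝ) * F₂.card ≤ C * C := mul_le_mul hFc₁ hFc₂ (by positivity) hC0
      _ = C ^ 2 := by ring
      _ ≤ _ := hp₃ p hp3
  calc (F₁.card : ℝ) * F₂.card * (p : ℝ) ^ (-δ₀)
      ≤ (p : ℝ) ^ (δ₀ / 2) * (p : ℝ) ^ (-δ₀) := mul_le_mul_of_nonneg_right h3 (by positivity)
    _ = (p : ℝ) ^ (-(δ₀ / 2)) := by
      rw [← Real.rpow_add hpp]
      congr 1
      ring

end Pool.Agent.SPI
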